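import Pool.Agent.Helper69.RF.Bas

/-!
# Project RF (MP_e74dc5_nt), module MAH: Mahler measure 1 by a pigeonhole argument
-/

set_option autoImplicit false

open Polynomial Helper62.Weber

namespace Pool.Agent.Helper29.RF

open Pool.Agent.Helper69.RF

private theorem msx (s : Multiset ℂ) (n : ℕ) (h : Multiset.card s = n) :
    ∃ x : Fin n → ℂ, ∀ z : ℂ, (s.map (fun a => z - a)).prod = ∏ i, (z - x i) := by
  subst h
  induction s using Multiset.induction with
  | empty => exact ⟨fun _ => 0, fun z => by simp⟩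
  | cons a s ih =>
    obtain ⟨x, hx⟩ := ih
    rw [Multiset.card_cons]
    refine ⟨Fin.cons a x, fun z => ?_⟩
    rw [Multiset.map_cons, Multiset.prod_cons, Fin.prod_univ_succ, hx z]
    rfl

private theorem fac (P : ℤ[X]) : ∃ (r : ℕ) (x : Fin r → ℂ), r = P.natDegree ∧
    ∀ z : ℂ, aeval z P = (P.leadingCoeff : ℂ) * ∏ i, (z - x i) := by
  have hinj : Function.Injective (Int.castRingHom ℂ) := Int.cast_injective
  have hsp : (P.map (Int.castRingHom ℂ)).Splits := IsAlgClosed.splits _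
  have hcard : Multiset.card (P.map (Int.castRingHom ℂ)).roots = P.natDegree := by
    rw [← hsp.natDegree_eq_card_roots, natDegree_map_eq_of_injective hinj]
  obtain ⟨x, hx⟩ := msx _ _ hcard
  refine ⟨_, x, rfl, fun z => ?_⟩
  have h1 : aeval z P = eval z (P.map (Int.castRingHom ℂ)) := by
    rw [eval_map, aeval_def]
    rfl
  rw [h1, hsp.eval_eq_prod_roots, hx, leadingCoeff_map_of_injective hinj]
  rfl

private theorem exb (x : ℂ) : ∃ β : ℂ, β ≠ 0 ∧ 1 ≤ ‖β‖ ∧ x = β + β⁻¹ := by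
  obtain ⟨s, hs⟩ := IsAlgClosed.exists_pow_nat_eq (x ^ 2 - 4) (n := 2) (by norm_num)
  have h1 : (x + s) / 2 * ((x - s) / 2) = 1 := by
    have : (x + s) / 2 * ((x - s) / 2) = (x ^ 2 - s ^ 2) / 4 := by ring
    rw [this, hs]
    ring
  have h0 : (x + s) / 2 ≠ 0 := left_ne_zero_of_mul_eq_one h1
  have h2 : ((x + s) / 2)⁻¹ = (x - s) / 2 := by
    rw [inv_eq_iff_eq_inv]
    exact eq_inv_of_mul_eq_one_left h1
  have hx : x = (x + s) / 2 + ((x + s) / 2)⁻¹ := by
    rw [h2]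
    ring
  by_cases h : 1 ≤ ‖(x + s) / 2‖
  · exact ⟨_, h0, h, hx⟩
  · refine ⟨((x + s) / 2)⁻¹, inv_ne_zero h0, ?_, ?_⟩
    · rw [norm_inv]
      exact (one_le_inv₀ (norm_pos_iff.2 h0)).2 (not_le.1 h).le
    · rw [inv_inv, add_comm]
      exact hx

private theorem psub (γ δ : ℂ) (h1 : ‖γ‖ = 1) (h2 : ‖δ‖ = 1) (k : ℕ) :
    ‖γ ^ k - δ ^ k‖ ≤ k * ‖γ - δ‖ := by
  induction k with
  | zero => simp
  | succ k ih =>
    have e : γ ^ (k + 1) - δ ^ (k + 1) = γ ^ k * (γ - δ) + (γ ^ k - δ ^ k) * δ := by ring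
    rw [e]
    refine (norm_add_le _ _).trans ?_
    rw [norm_mul, norm_mul, norm_pow, h1, h2, one_pow, one_mul, mul_one]
    push_cast
    linarith

private theorem prodf (hPSI : PSI) (P : ℤ[X]) {r : ℕ} (x β : Fin r → ℂ)
    (hfac : ∀ z : ℂ, aeval z P = (P.leadingCoeff : ℂ) * ∏ i, (z - x i))
    (hβ : ∀ i, β i ≠ 0) (hx : ∀ i, x i = β i + (β i)⁻¹) (m : ℕ) :
    |∏ i ∈ Finset.range (2 ^ m), aeval (cR m (2 * i + 1)) P| =
      |(P.leadingCoeff : ℝ)| ^ (2 ^ m) * ∏ j, ‖β j ^ 2 ^ m + (β j)⁻¹ ^ 2 ^ m‖ := by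
  have h0 : ∀ y : ℝ, ((aeval y P : ℝ) : ℂ) = aeval (y : ℂ) P := fun y =>
    (aeval_algebraMap_apply ℂ y P).symm
  have h1 : |∏ i ∈ Finset.range (2 ^ m), aeval (cR m (2 * i + 1)) P| =
      ‖∏ i ∈ Finset.range (2 ^ m), aeval ((cR m (2 * i + 1) : ℝ) : ℂ) P‖ := by
    rw [← Real.norm_eq_abs, ← Complex.norm_real, Complex.ofReal_prod]
    congr 1
    exact Finset.prod_congr rfl fun i _ => h0 _
  have h2 : ∀ i ∈ Finset.range (2 ^ m), aeval ((cR m (2 * i + 1) : ℝ) : ℂ) P =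
      (P.leadingCoeff : ℂ) * ∏ j, (((cR m (2 * i + 1) : ℝ) : ℂ) - x j) := fun i _ => hfac _
  rw [h1, Finset.prod_congr rfl h2, Finset.prod_mul_distrib, Finset.prod_const, Finset.card_range,
    norm_mul, norm_pow, Finset.prod_comm, norm_prod]
  congr 1
  · congr 1
    exact Complex.norm_intCast _
  · refine Finset.prod_congr rfl fun j _ => ?_
    rw [← hPSI m (β j) (hβ j), ← hx j, norm_prod, norm_prod]
    exact Finset.prod_congr rfl fun i _ => norm_sub_rev _ _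

private theorem grow (K : ℕ) : ∀ᶠ n : ℕ in Filter.atTop, K * (n ^ 2 + 1) < 2 ^ n := by
  have h1 := tendsto_pow_const_div_const_pow_of_one_lt 2 (r := (2 : ℝ)) (by norm_num)
  have h2 := tendsto_pow_const_div_const_pow_of_one_lt 0 (r := (2 : ℝ)) (by norm_num)
  have h3 := (h1.add h2).const_mul (K : ℝ)
  rw [add_zero, mul_zero] at h3
  filter_upwards [h3.eventually_lt_const (show (0 : ℝ) < 1 by norm_num)] with n hn
  have hp : (0 : ℝ) < 2 ^ n := by positivity
  have e : (K : ℝ) * ((n : ℝ) ^ 2 / 2 ^ n + (n : ℝ) ^ 0 / 2 ^ n) =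
      (K : ℝ) * ((n : ℝ) ^ 2 + 1) / 2 ^ n := by
    rw [pow_zero]
    field_simp
  rw [e, div_lt_one hp] at hn
  exact_mod_cast hn

theorem cMAH : MAH := by
  intro hPSI P C A hP hA hN
  obtain ⟨r, x, hr, hfac⟩ := fac P
  rw [← hr] at hN
  choose β hβ0 hβ1 hx using fun i => exb (x i)
  have hprod := prodf hPSI P x β hfac hβ0 hx
  have hlc0 : P.leadingCoeff ≠ 0 := leadingCoeff_ne_zero.2 hP
  have hlc1 : 1 ≤ |(P.leadingCoeff : ℝ)| := by
    have := Int.one_le_abs hlc0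
    exact_mod_cast this
  set ρ : ℝ := |(P.leadingCoeff : ℝ)| * ∏ j, ‖β j‖ with hρ
  have hpr1 : 1 ≤ ∏ j, ‖β j‖ := by
    have := Finset.prod_le_prod (s := Finset.univ) (f := fun _ : Fin r => (1 : ℝ))
      (g := fun j => ‖β j‖) (fun _ _ => zero_le_one) (fun j _ => hβ1 j)
    simpa using this
  have hρ1 : 1 ≤ ρ := by nlinarith
  rcases hρ1.eq_or_lt with heq | hlt
  · -- `ρ = 1`
    have hl : |(P.leadingCoeff : ℝ)| = 1 := by nlinarith
    have hp : ∏ j, ‖β j‖ = 1 := by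
      rw [hl, one_mul] at hρ
      rw [← hρ, heq]
    have hb : ∀ j, ‖β j‖ = 1 := by
      intro j
      refine le_antisymm ?_ (hβ1 j)
      rw [← hp, ← Finset.mul_prod_erase Finset.univ (fun j => ‖β j‖) (Finset.mem_univ j)]
      have : 1 ≤ ∏ i ∈ Finset.univ.erase j, ‖β i‖ := by
        have := Finset.prod_le_prod (s := Finset.univ.erase j)
          (f := fun _ : Fin r => (1 : ℝ))
          (g := fun j => ‖β j‖) (fun _ _ => zero_le_one) (fun j _ => hβ1 j)
        simpa using this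
      nlinarith [norm_nonneg (β j)]
    refine ⟨?_, fun b hb0 hbr => ?_⟩
    · have h1 : |P.leadingCoeff| = 1 := by exact_mod_cast hl
      rcases abs_eq (zero_le_one) |>.1 h1 with h | h
      · exact Or.inl h
      · exact Or.inr h
    · rw [hfac] at hbr
      have hlc' : (P.leadingCoeff : ℂ) ≠ 0 := by exact_mod_cast hlc0
      have h1 := (mul_eq_zero.1 hbr).resolve_left hlc'
      obtain ⟨j, _, hj⟩ := Finset.prod_eq_zero_iff.1 h1
      rw [hx j] at hj
      have h2 : (b - β j) * (b * β j - 1) = 0 := by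
        have hbj := hβ0 j
        have h3 : (b - β j) * (b * β j - 1) = (b + b⁻¹ - (β j + (β j)⁻¹)) * (b * β j) := by
          field_simp
          ring
        rw [h3, hj, zero_mul]
      rcases mul_eq_zero.1 h2 with h | h
      · rw [sub_eq_zero.1 h]
        exact hb j
      · have h4 : ‖b‖ * ‖β j‖ = 1 := by
          rw [← norm_mul, sub_eq_zero.1 h, norm_one]
        rw [hb j, mul_one] at h4
        exact h4
  · -- `ρ > 1`
    exfalso
    -- growth of the large roots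
    have hbig : ∀ᶠ m : ℕ in Filter.atTop, ∀ j : Fin r, 1 < ‖β j‖ → 2 ≤ ‖β j‖ ^ 2 ^ m := by
      rw [Filter.eventually_all]
      intro j
      by_cases hj : 1 < ‖β j‖
      · obtain ⟨K, hK⟩ := pow_unbounded_of_one_lt 2 hj
        filter_upwards [Filter.eventually_ge_atTop K] with m hm _
        exact hK.le.trans (pow_le_pow_right₀ hj.le (hm.trans (Nat.lt_two_pow_self).le))
      · exact Filter.Eventually.of_forall fun m h => absurd h hj
    obtain ⟨m0, hm0⟩ := Filter.eventually_atTop.1 hbig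
    -- the exponent `K`
    obtain ⟨K, hK⟩ := pow_unbounded_of_one_lt (max C 1 * 2 ^ r) hlt
    obtain ⟨n1, hn1⟩ := Filter.eventually_atTop.1 (grow K)
    obtain ⟨n, hn, hcard⟩ := hN (max m0 n1)
    have hnm0 : m0 ≤ n := (le_max_left _ _).trans hn
    have hnn1 : n1 ≤ n := (le_max_right _ _).trans hn
    set ε : ℝ := (1 / 2) ^ (n ^ 2 + 1) with hε
    have hε0 : 0 < ε := by positivity
    have hε1 : ε ≤ 1 / 2 := by
      rw [hε, pow_succ]
      have : ((1 : ℝ) / 2) ^ (n ^ 2) ≤ 1 := pow_le_one₀ (by norm_num) (by norm_num)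
      linarith
    have hC : max C 1 * 2 ^ (r * (n ^ 2 + 1)) < ρ ^ 2 ^ n := by
      have h1 : max C 1 * 2 ^ (r * (n ^ 2 + 1)) ≤ (max C 1 * 2 ^ r) ^ (n ^ 2 + 1) := by
        rw [mul_pow, ← pow_mul]
        refine mul_le_mul_of_nonneg_right ?_ (by positivity)
        exact le_self_pow₀ (le_max_right _ _) (by omega)
      refine h1.trans_lt ?_
      have h2 : (max C 1 * 2 ^ r) ^ (n ^ 2 + 1) < (ρ ^ K) ^ (n ^ 2 + 1) :=
        pow_lt_pow_left₀ hK (by positivity) (by omega)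
      refine h2.trans_le ?_
      rw [← pow_mul]
      exact pow_le_pow_right₀ hρ1 (hn1 n hnn1).le
    -- the key claim
    have hkey : ∀ m ∈ A ∩ Set.Icc n (n ^ 2), ∃ j : Fin r,
        ‖β j ^ 2 ^ m + (β j)⁻¹ ^ 2 ^ m‖ < ε * ‖β j‖ ^ 2 ^ m := by
      intro m hm
      by_contra hcon
      have hcon' : ∀ j : Fin r, ε * ‖β j‖ ^ 2 ^ m ≤ ‖β j ^ 2 ^ m + (β j)⁻¹ ^ 2 ^ m‖ := by
        intro j
        by_contra h
        exact hcon ⟨j, not_le.1 h⟩
      have h1 : ∏ j : Fin r, (ε * ‖β j‖ ^ 2 ^ m) ≤ ∏ j, ‖β j ^ 2 ^ m + (β j)⁻¹ ^ 2 ^ m‖ :=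
        Finset.prod_le_prod (fun j _ => by positivity) fun j _ => hcon' j
      have h2 : ∏ j : Fin r, (ε * ‖β j‖ ^ 2 ^ m) = ε ^ r * (∏ j, ‖β j‖) ^ 2 ^ m := by
        rw [Finset.prod_mul_distrib, Finset.prod_const, Finset.card_univ, Fintype.card_fin,
          Finset.prod_pow]
      have h3 := hA m hm.1
      rw [hprod] at h3
      have h4 : ε ^ r * ρ ^ 2 ^ m ≤ C := by
        refine le_trans ?_ h3
        rw [hρ, mul_pow]
        rw [h2] at h1
        calc ε ^ r * (|(P.leadingCoeff : ℝ)| ^ 2 ^ m * (∏ j, ‖β j‖) ^ 2 ^ m)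
            = |(P.leadingCoeff : ℝ)| ^ 2 ^ m * (ε ^ r * (∏ j, ‖β j‖) ^ 2 ^ m) := by ring
          _ ≤ _ := mul_le_mul_of_nonneg_left h1 (by positivity)
      have h5 : ρ ^ 2 ^ n ≤ ρ ^ 2 ^ m :=
        pow_le_pow_right₀ hρ1 (pow_le_pow_right₀ (by norm_num) hm.2.1)
      have h6 : ε ^ r * 2 ^ (r * (n ^ 2 + 1)) = 1 := by
        rw [hε, ← pow_mul, mul_comm (n ^ 2 + 1) r, ← mul_pow]
        norm_num
      have h7 : ε ^ r * (max C 1 * 2 ^ (r * (n ^ 2 + 1))) = max C 1 := by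
        calc ε ^ r * (max C 1 * 2 ^ (r * (n ^ 2 + 1)))
            = max C 1 * (ε ^ r * 2 ^ (r * (n ^ 2 + 1))) := by ring
          _ = max C 1 := by rw [h6, mul_one]
      have h8 : max C 1 < C := by
        calc max C 1 = ε ^ r * (max C 1 * 2 ^ (r * (n ^ 2 + 1))) := h7.symm
          _ < ε ^ r * ρ ^ 2 ^ n := mul_lt_mul_of_pos_left hC (by positivity)
          _ ≤ ε ^ r * ρ ^ 2 ^ m := mul_le_mul_of_nonneg_left h5 (by positivity)
          _ ≤ C := h4
      exact absurd (le_max_left C 1) (not_le.2 h8)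
    haveI : Nonempty (Fin r) := by
      have hne : (A ∩ Set.Icc n (n ^ 2)).Nonempty := by
        rw [Set.nonempty_iff_ne_empty]
        intro h0
        rw [h0, Set.ncard_empty] at hcard
        omega
      obtain ⟨m, hm⟩ := hne
      exact ⟨(hkey m hm).choose⟩
    choose! f hf using hkey
    -- the root has absolute value one
    have hunit : ∀ m ∈ A ∩ Set.Icc n (n ^ 2), ‖β (f m)‖ = 1 := by
      intro m hm
      by_contra hne
      have hgt : 1 < ‖β (f m)‖ := lt_of_le_of_ne (hβ1 _) (Ne.symm hne)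
      have h1 := hm0 m (hnm0.trans hm.2.1) (f m) hgt
      have h2 := hf m hm
      have h3 : ‖(β (f m))⁻¹ ^ 2 ^ m‖ ≤ 1 := by
        rw [norm_pow, norm_inv]
        exact pow_le_one₀ (by positivity) (inv_le_one_of_one_le₀ (hβ1 _))
      have h4 : ‖β (f m)‖ ^ 2 ^ m - 1 ≤ ‖β (f m) ^ 2 ^ m + (β (f m))⁻¹ ^ 2 ^ m‖ := by
        have := norm_sub_le (β (f m) ^ 2 ^ m + (β (f m))⁻¹ ^ 2 ^ m) ((β (f m))⁻¹ ^ 2 ^ m)
        rw [add_sub_cancel_right, norm_pow] at this
        linarith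
      nlinarith
    have hone : ∀ m ∈ A ∩ Set.Icc n (n ^ 2), ‖β (f m) ^ 2 ^ (m + 1) + 1‖ < ε := by
      intro m hm
      have h1 := hf m hm
      have h2 := hunit m hm
      rw [h2, one_pow, mul_one] at h1
      have h3 : β (f m) ^ 2 ^ (m + 1) + 1 =
          β (f m) ^ 2 ^ m * (β (f m) ^ 2 ^ m + (β (f m))⁻¹ ^ 2 ^ m) := by
        have e1 : β (f m) ^ 2 ^ m * (β (f m))⁻¹ ^ 2 ^ m = 1 := by
          rw [← mul_pow, mul_inv_cancel₀ (hβ0 _), one_pow]
        have e2 : β (f m) ^ 2 ^ (m + 1) = β (f m) ^ 2 ^ m * β (f m) ^ 2 ^ m := by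
          rw [← pow_add]
          congr 1
          ring
        rw [mul_add, e1, e2]
      rw [h3, norm_mul, norm_pow, h2, one_pow, one_mul]
      exact h1
    -- pigeonhole
    have hfin : (A ∩ Set.Icc n (n ^ 2)).Finite := (Set.finite_Icc _ _).subset Set.inter_subset_right
    obtain ⟨m, hm, m', hm', hne, hff⟩ : ∃ m ∈ hfin.toFinset, ∃ m' ∈ hfin.toFinset,
        m ≠ m' ∧ f m = f m' := by
      apply Finset.exists_ne_map_eq_of_card_lt_of_maps_to (t := (Finset.univ : Finset (Fin r)))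
      · rw [Finset.card_univ, Fintype.card_fin, ← Set.ncard_eq_toFinset_card _ hfin]
        exact hcard
      · exact fun _ _ => Finset.mem_coe.2 (Finset.mem_univ _)
    rw [Set.Finite.mem_toFinset] at hm hm'
    have main : ∀ a b : ℕ, a ∈ A ∩ Set.Icc n (n ^ 2) → b ∈ A ∩ Set.Icc n (n ^ 2) → a < b →
        f a = f b → False := by
      intro a b ha hb hab hfab
      have h1 := hone a ha
      have h2 := hone b hb
      rw [← hfab] at h2
      have hu := hunit a ha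
      have h3 : β (f a) ^ 2 ^ (b + 1) = (β (f a) ^ 2 ^ (a + 1)) ^ 2 ^ (b - a) := by
        rw [← pow_mul, ← pow_add]
        congr 2
        omega
      have h4 := psub (β (f a) ^ 2 ^ (a + 1)) (-1) (by rw [norm_pow, hu, one_pow])
        (by rw [norm_neg, norm_one]) (2 ^ (b - a))
      have h5 : ((-1 : ℂ)) ^ 2 ^ (b - a) = 1 := by
        apply Even.neg_one_pow
        exact (Nat.even_pow.2 ⟨even_two, by omega⟩)
      rw [← h3, h5, sub_neg_eq_add] at h4
      have h6 : (((2 : ℕ) ^ (b - a) : ℕ) : ℝ) ≤ 2 ^ n ^ 2 := by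
        push_cast
        refine pow_le_pow_right₀ (by norm_num) ?_
        have := hb.2.2
        omega
      have h7 : (2 : ℝ) ^ n ^ 2 * ε = 1 / 2 := by
        have h70 : (2 : ℝ) ^ n ^ 2 * (1 / 2) ^ n ^ 2 = 1 := by
          rw [← mul_pow]
          norm_num
        rw [hε, pow_succ (1 / 2 : ℝ) (n ^ 2), ← mul_assoc, h70, one_mul]
      have h8 : ‖β (f a) ^ 2 ^ (b + 1) - 1‖ ≤ 1 / 2 := by
        refine h4.trans ?_
        calc (((2 : ℕ) ^ (b - a) : ℕ) : ℝ) * ‖β (f a) ^ 2 ^ (a + 1) + 1‖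
            ≤ 2 ^ n ^ 2 * ε := mul_le_mul h6 h1.le (norm_nonneg _) (by positivity)
          _ = 1 / 2 := h7
      have h9 : (2 : ℝ) ≤ ‖β (f a) ^ 2 ^ (b + 1) + 1‖ + ‖β (f a) ^ 2 ^ (b + 1) - 1‖ := by
        have := norm_sub_le (β (f a) ^ 2 ^ (b + 1) + 1) (β (f a) ^ 2 ^ (b + 1) - 1)
        have e : β (f a) ^ 2 ^ (b + 1) + 1 - (β (f a) ^ 2 ^ (b + 1) - 1) = 2 := by ring
        rw [e] at this
        simpa using this
      linarith
    rcases lt_or_gt_of_ne hne with h | h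
    · exact main m m' hm hm' h hff
    · exact main m' m hm' hm h hff.symm

end Pool.Agent.Helper29.RF
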